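import Pool.Agent.KS6_66.SS.K

/-!
# Supersaturation for weighted independent sets: the optimal exponent for all parameters

`HPair`, `Star` (the hypotheses (*)) and `Supersat` (the supersaturation bound with an exponent
`θ`) are defined in `Pool/Agent/KS6_66/SS/A.lean` and `Pool/Agent/KS6_66/SS/G.lean`.
-/

set_option autoImplicit false

namespace Pool.Agent.Results.MP_362e7f_co.OptimalExponent

open Pool.Agent.KS6_66.SS

/-- Let `1 ≤ f ≤ f'` and `f < h - β`.
(1) The assertion of Q1 holds for all families with these parameters if and only if `f ≤ 2` or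
`β < 0`.
(2) If `β ≥ 0` and `f' ≥ 2`, then the optimal exponent is `2 / (h - β - max(f, 2) + 2)`.
(3) If `β < 0` or `f' = 1`, then `e(H) ≥ k n ^ β` is impossible for large `k`. -/
theorem result (h f f' : ℕ) (β : ℝ) (hf : 1 ≤ f) (hff' : f ≤ f') (hfβ : (f : ℝ) < h - β) :
    ((∀ Fam : Set HPair, Star Fam h f f' β → Supersat Fam β ((f : ℝ) / ((h : ℝ) - β))) ↔
      (f ≤ 2 ∨ β < 0)) ∧
    (0 ≤ β → 2 ≤ f' →
      (∀ Fam : Set HPair, Star Fam h f f' β →
        Supersat Fam β (2 / ((h : ℝ) - β - max (f : ℝ) 2 + 2))) ∧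
      ∃ Fam : Set HPair, Star Fam h f f' β ∧
        ∀ θ : ℝ, Supersat Fam β θ → θ ≤ 2 / ((h : ℝ) - β - max (f : ℝ) 2 + 2)) ∧
    ((β < 0 ∨ f' = 1) → ∀ Fam : Set HPair, Star Fam h f f' β →
      ∃ k₀ : ℝ, ∀ P ∈ Fam, P.V.Nonempty → ∀ k : ℝ, k₀ ≤ k →
        ¬ k * (P.V.card : ℝ) ^ β ≤ P.H.card) := by
  refine ⟨classification h f f' β hf hff' hfβ,
    fun hβ hf' => optimal h f f' β hf hff' hfβ hβ hf', ?_⟩
  intro hc Fam S
  rcases lt_or_ge β 0 with hβ | hβ
  · exact vac_neg S hβ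
  · rcases hc with hc | hc
    · exact absurd hc (not_lt.2 hβ)
    · subst hc
      exact vac_one S hβ

end Pool.Agent.Results.MP_362e7f_co.OptimalExponent
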